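import Pool.Agent.Helper70.BRT.Spec

/-! # Module DEFN: definability and monotonicity of the combinatorial notions -/

namespace Pool.Agent.Helper70.BRT

universe u

section defn

variable {M : Type u} [PModel M] {bd : M → M} {A : ℕ → Set M}
variable {f : M × M → Prop} {Φ : (M × M) × M → Prop}
variable {Γ : Type u} [Ctx M Γ]

theorem defn_el (hcod : CodAPI M bd) {x c : Γ → M} (hx : Rec A x) (hc : Rec A c) :
    RecP A (fun g => el (x g) (c g)) :=
  (hcod.el_rec.of_pure A).comp (hx.prodMk hc)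

theorem defn_bd (hcod : CodAPI M bd) {x : Γ → M} (hx : Rec A x) : Rec A (fun g => bd (x g)) :=
  Rec.comp (F := bd) (hcod.bd_rec.of_pure A) hx

theorem defn_agree (hcod : CodAPI M bd) (hA : Coll1 A) {n c c' : Γ → M} (hn : Rec A n)
    (hc : Rec A c) (hc' : Rec A c') : RecP A (fun g => Agree (n g) (c g) (c' g)) := by
  refine RecP.ball hA hn (R := fun g x => (el x (c g) ↔ el x (c' g))) ?_
  exact (defn_el hcod PMap.id.snd.rec (hc.comp PMap.id.fst.rec)).iff
    (defn_el hcod PMap.id.snd.rec (hc'.comp PMap.id.fst.rec))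

theorem defn_hom0 (hcod : CodAPI M bd) (hA : Coll1 A) (hf : RecP A f) {n c : Γ → M}
    (hn : Rec A n) (hc : Rec A c) : RecP A (fun g => Hom0 f (n g) (c g)) := by
  have h1 : RecP A (fun g : Γ => ∀ y, y < n g → ∀ x, x < y → el x (c g) → el y (c g) →
      ¬ f (x, y)) := by
    refine RecP.ball hA hn (R := fun g y => ∀ x, x < y → el x (c g) → el y (c g) →
      ¬ f (x, y)) ?_
    refine RecP.ball hA PMap.id.snd.rec (R := fun (g : Γ × M) x => el x (c g.1) →
      el g.2 (c g.1) → ¬ f (x, g.2)) ?_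
    refine (defn_el hcod PMap.id.snd.rec (hc.comp PMap.id.fst.fst.rec)).imp
      ((defn_el hcod PMap.id.fst.snd.rec (hc.comp PMap.id.fst.fst.rec)).imp ?_)
    exact (hf.comp (PMap.id.snd.rec.prodMk PMap.id.fst.snd.rec)).not
  refine h1.congr fun g => ?_
  constructor
  · intro h y hy x hx h2 h3
    exact h x y hx hy h2 h3
  · intro h x y hx hy h2 h3
    exact h y hy x hx h2 h3

theorem defn_ext (hcod : CodAPI M bd) (hA : Coll1 A) (hf : RecP A f) {n c n' c' : Γ → M}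
    {R : Γ → M → Prop} (hn : Rec A n) (hc : Rec A c) (hn' : Rec A n') (hc' : Rec A c')
    (hR : RecP A (fun g : Γ × M => R g.1 g.2)) :
    RecP A (fun g => Ext f (n g) (c g) (n' g) (c' g) (R g)) := by
  refine (RecP.le hn hn').and ((defn_agree hcod hA hn hc hc').and
    (RecP.and ?_ (defn_hom0 hcod hA hf hn' hc')))
  refine RecP.ball hA hn' (R := fun g x => n g ≤ x → el x (c' g) → R g x) ?_
  exact (RecP.le (hn.comp PMap.id.fst.rec) PMap.id.snd.rec).imp
    ((defn_el hcod PMap.id.snd.rec (hc'.comp PMap.id.fst.rec)).imp hR)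

theorem defn_ev (hcod : CodAPI M bd) (hA : Coll1 A) (hΦ : RecP A Φ) {b e n c : Γ → M}
    (hb : Rec A b) (he : Rec A e) (hn : Rec A n) (hc : Rec A c) :
    RecP A (fun g => Ev Φ (b g) (e g) (n g) (c g)) := by
  refine RecP.or ?_ ?_
  · refine (RecP.lt he hb).and ?_
    refine RecP.bex hA (hn.add (Rec.const 1)) (R := fun g m => Φ ((e g, m), c g)) ?_
    exact hΦ.comp (((he.comp PMap.id.fst.rec).prodMk PMap.id.snd.rec).prodMk
      (hc.comp PMap.id.fst.rec))
  · refine (RecP.eq he hb).and ?_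
    refine RecP.bex hA hn (R := fun g x => b g ≤ x ∧ el x (c g)) ?_
    exact (RecP.le (hb.comp PMap.id.fst.rec) PMap.id.snd.rec).and
      (defn_el hcod PMap.id.snd.rec (hc.comp PMap.id.fst.rec))

theorem defn_cons2 (hcod : CodAPI M bd) (hA : Coll1 A) {S x y : Γ → M}
    (hS : Rec A S) (hx : Rec A x) (hy : Rec A y) :
    RecP A (fun g => Cons2 (S g) (x g) (y g)) := by
  refine (defn_el hcod hx hS).and ((defn_el hcod hy hS).and ((RecP.lt hx hy).and ?_))
  refine RecP.ball hA hy (R := fun g z => x g < z → ¬ el z (S g)) ?_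
  exact (RecP.lt (hx.comp PMap.id.fst.rec) PMap.id.snd.rec).imp
    (defn_el hcod PMap.id.snd.rec (hS.comp PMap.id.fst.rec)).not

theorem defn_att (hcod : CodAPI M bd) (hA : Coll1 A) (hf : RecP A f) (hΦ : RecP A Φ)
    {S m v : Γ → M} {R : Γ → M → Prop} (hS : Rec A S) (hm : Rec A m) (hv : Rec A v)
    (hR : RecP A (fun g : Γ × M => R g.1 g.2)) :
    RecP A (fun g => Att bd f Φ (S g) (m g) (v g) (R g)) := by
  refine RecP.bex hA (defn_bd hcod hm) (R := fun g s => Hom0 f (m g) s ∧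
    (∀ y, y < v g → m g ≤ y → R g y → ∀ x, x < m g → el x s → ¬ f (x, y)) ∧
    ∀ n, n < v g + 1 → ∀ t, t < bd (v g) → Ext f (m g) s n t (R g) →
      ∀ k, k < m g → ∀ k', k' < m g + 1 → Cons2 (S g) k k' →
        ∀ e, e < k + 1 → Ev Φ k e n t → Ev Φ k e k' t) ?_
  refine (defn_hom0 hcod hA hf (hm.comp PMap.id.fst.rec) PMap.id.snd.rec).and (RecP.and ?_ ?_)
  · refine RecP.ball hA (hv.comp PMap.id.fst.rec) (R := fun (g : Γ × M) y => m g.1 ≤ y →
      R g.1 y → ∀ x, x < m g.1 → el x g.2 → ¬ f (x, y)) ?_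
    refine (RecP.le (hm.comp PMap.id.fst.fst.rec) PMap.id.snd.rec).imp
      (RecP.imp (hR.comp (PMap.id.fst.fst.rec.prodMk PMap.id.snd.rec)) ?_)
    refine RecP.ball hA (hm.comp PMap.id.fst.fst.rec) (R := fun (g : (Γ × M) × M) x =>
      el x g.1.2 → ¬ f (x, g.2)) ?_
    exact (defn_el hcod PMap.id.snd.rec PMap.id.fst.fst.snd.rec).imp
      (hf.comp (PMap.id.snd.rec.prodMk PMap.id.fst.snd.rec)).not
  · -- context Γ × M (s)
    refine RecP.ball hA ((hv.comp PMap.id.fst.rec).add (Rec.const 1)) (R := fun (g : Γ × M) n =>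
      ∀ t, t < bd (v g.1) → Ext f (m g.1) g.2 n t (R g.1) →
      ∀ k, k < m g.1 → ∀ k', k' < m g.1 + 1 → Cons2 (S g.1) k k' →
        ∀ e, e < k + 1 → Ev Φ k e n t → Ev Φ k e k' t) ?_
    refine RecP.ball hA (defn_bd hcod (hv.comp PMap.id.fst.fst.rec))
      (R := fun (g : (Γ × M) × M) t => Ext f (m g.1.1) g.1.2 g.2 t (R g.1.1) →
      ∀ k, k < m g.1.1 → ∀ k', k' < m g.1.1 + 1 → Cons2 (S g.1.1) k k' →
        ∀ e, e < k + 1 → Ev Φ k e g.2 t → Ev Φ k e k' t) ?_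
    -- context ((Γ × M) × M) × M : (((g, s), n), t)
    refine RecP.imp ?_ ?_
    · exact defn_ext hcod hA hf (Γ := ((Γ × M) × M) × M) (n := fun g => m g.1.1.1)
        (c := fun g => g.1.1.2) (n' := fun g => g.1.2) (c' := fun g => g.2)
        (R := fun g => R g.1.1.1) (hm.comp PMap.id.fst.fst.fst.rec) PMap.id.fst.fst.snd.rec
        PMap.id.fst.snd.rec PMap.id.snd.rec
        (hR.comp (PMap.id.fst.fst.fst.fst.rec.prodMk PMap.id.snd.rec))
    · refine RecP.ball hA (hm.comp PMap.id.fst.fst.fst.rec)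
        (R := fun (g : ((Γ × M) × M) × M) k => ∀ k', k' < m g.1.1.1 + 1 →
          Cons2 (S g.1.1.1) k k' →
          ∀ e, e < k + 1 → Ev Φ k e g.1.2 g.2 → Ev Φ k e k' g.2) ?_
      refine RecP.ball hA ((hm.comp PMap.id.fst.fst.fst.fst.rec).add (Rec.const 1))
        (R := fun (g : (((Γ × M) × M) × M) × M) k' => Cons2 (S g.1.1.1.1) g.2 k' →
          ∀ e, e < g.2 + 1 → Ev Φ g.2 e g.1.1.2 g.1.2 → Ev Φ g.2 e k' g.1.2) ?_
      -- context (((((g, s), n), t), k), k')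
      refine RecP.imp (defn_cons2 hcod hA (hS.comp PMap.id.fst.fst.fst.fst.fst.rec)
        PMap.id.fst.snd.rec PMap.id.snd.rec) ?_
      refine RecP.ball hA (PMap.id.fst.snd.rec.add (Rec.const 1))
        (R := fun (g : ((((Γ × M) × M) × M) × M) × M) e =>
          Ev Φ g.1.2 e g.1.1.1.2 g.1.1.2 → Ev Φ g.1.2 e g.2 g.1.1.2) ?_
      -- context ((((((g, s), n), t), k), k'), e)
      exact RecP.imp (defn_ev hcod hA hΦ PMap.id.fst.fst.snd.rec PMap.id.snd.rec
        PMap.id.fst.fst.fst.fst.snd.rec PMap.id.fst.fst.fst.snd.rec)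
        (defn_ev hcod hA hΦ PMap.id.fst.fst.snd.rec PMap.id.snd.rec
        PMap.id.fst.snd.rec PMap.id.fst.fst.fst.snd.rec)

theorem defn_cov (hcod : CodAPI M bd) (hA : Coll1 A) (hf : RecP A f) (hΦ : RecP A Φ)
    {S m v N : Γ → M} {P : Γ → M → Prop} (hS : Rec A S) (hm : Rec A m) (hv : Rec A v)
    (hN : Rec A N) (hP : RecP A (fun g : Γ × M => P g.1 g.2)) :
    RecP A (fun g => Cov bd f Φ (S g) (m g) (v g) (N g) (P g)) := by
  refine RecP.bex hA (defn_bd hcod (hv.pair hN)) (R := fun g C =>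
    (∀ y, y < v g → m g ≤ y → P g y → ∃ k, k < N g ∧ el (pair y k) C) ∧
    ∀ k, k < N g → Att bd f Φ (S g) (m g) (v g) (fun y => P g y ∧ el (pair y k) C)) ?_
  refine RecP.and ?_ ?_
  · refine RecP.ball hA (hv.comp PMap.id.fst.rec) (R := fun (g : Γ × M) y => m g.1 ≤ y →
      P g.1 y → ∃ k, k < N g.1 ∧ el (pair y k) g.2) ?_
    refine (RecP.le (hm.comp PMap.id.fst.fst.rec) PMap.id.snd.rec).imp
      (RecP.imp (hP.comp (PMap.id.fst.fst.rec.prodMk PMap.id.snd.rec)) ?_)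
    refine RecP.bex hA (hN.comp PMap.id.fst.fst.rec) (R := fun (g : (Γ × M) × M) k =>
      el (pair g.2 k) g.1.2) ?_
    exact defn_el hcod (PMap.id.fst.snd.rec.pair PMap.id.snd.rec) PMap.id.fst.fst.snd.rec
  · refine RecP.ball hA (hN.comp PMap.id.fst.rec) (R := fun (g : Γ × M) k =>
      Att bd f Φ (S g.1) (m g.1) (v g.1) (fun y => P g.1 y ∧ el (pair y k) g.2)) ?_
    exact defn_att hcod hA hf hΦ (Γ := (Γ × M) × M) (S := fun g => S g.1.1)
      (m := fun g => m g.1.1) (v := fun g => v g.1.1)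
      (R := fun g y => P g.1.1 y ∧ el (pair y g.2) g.1.2)
      (hS.comp PMap.id.fst.fst.rec) (hm.comp PMap.id.fst.fst.rec) (hv.comp PMap.id.fst.fst.rec)
      ((hP.comp (PMap.id.fst.fst.fst.rec.prodMk PMap.id.snd.rec)).and
        (defn_el hcod (PMap.id.snd.rec.pair PMap.id.fst.snd.rec) PMap.id.fst.fst.snd.rec))

theorem defn_ismax (hcod : CodAPI M bd) (hA : Coll1 A) {S m : Γ → M} (hS : Rec A S)
    (hm : Rec A m) : RecP A (fun g => IsMaxOf (S g) (m g)) := by
  have h1 : RecP A (fun g : Γ => el (m g) (S g) ∧ ∀ x, x < S g → el x (S g) → x ≤ m g) := by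
    refine (defn_el hcod hm hS).and ?_
    refine RecP.ball hA hS (R := fun g x => el x (S g) → x ≤ m g) ?_
    exact (defn_el hcod PMap.id.snd.rec (hS.comp PMap.id.fst.rec)).imp
      (RecP.le PMap.id.snd.rec (hm.comp PMap.id.fst.rec))
  refine h1.congr fun g => ?_
  constructor
  · rintro ⟨h2, h3⟩
    exact ⟨h2, fun x _ hx => h3 x hx⟩
  · rintro ⟨h2, h3⟩
    exact ⟨h2, fun x hx => h3 x (hcod.el_lt x _ hx) hx⟩

theorem defn_att_mono (hcod : CodAPI M bd) (S m v v' : M) (R R' : M → Prop) (_h1 : m ≤ v')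
    (h2 : v' ≤ v) (h3 : ∀ y, y < v' → m ≤ y → R' y → R y) (h : Att bd f Φ S m v R) :
    Att bd f Φ S m v' R' := by
  obtain ⟨s, hs, ha, hb, hc⟩ := h
  refine ⟨s, hs, ha, ?_, ?_⟩
  · intro y hy hmy hR
    exact hb y (hy.trans_le h2) hmy (h3 y hy hmy hR)
  · intro n hn t ht hE g hg g' hg' hC e he
    refine hc n (hn.trans_le ?_) t (ht.trans_le (hcod.bd_mono h2)) ?_ g hg g' hg' hC e he
    · gcongr
    · obtain ⟨e1, e2, e3, e4⟩ := hE
      refine ⟨e1, e2, ?_, e4⟩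
      intro x hx hmx hxt
      exact h3 x (hx.trans_le (lt_add_one_iff'.mp hn)) hmx (e3 x hx hmx hxt)

theorem defn_pair_lt {x y x' y' : M} (hx : x < x') (hy : y ≤ y') : pair x y < pair x' y' :=
  pair_lt_aux (add_lt_add_of_lt_of_le hx hy)

theorem defn_cov_mono (hcod : CodAPI M bd) (hA : Base A) (S m v v' N N' : M)
    (P P' : M → Prop) (h1 : m ≤ v') (h2 : v' ≤ v) (h0 : 0 < N) (hN : N ≤ N')
    (h3 : ∀ y, y < v' → m ≤ y → P' y → P y) (h : Cov bd f Φ S m v N P) :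
    Cov bd f Φ S m v' N' P' := by
  obtain ⟨C, hC, ha, hb⟩ := h
  set Q : M → Prop := fun x => el x C ∧ ∃ y, y < v' ∧ ∃ k, k < N ∧ x = pair y k with hQ
  have hQr : RecP A Q := by
    refine (defn_el hcod PMap.id.rec (Rec.const C)).and ?_
    refine RecP.bex hA.coll (Rec.const v') (R := fun x y => ∃ k, k < N ∧ x = pair y k) ?_
    refine RecP.bex hA.coll (Rec.const N) (R := fun (g : M × M) k => g.1 = pair g.2 k) ?_
    exact RecP.eq PMap.id.fst.fst.rec (PMap.id.fst.snd.rec.pair PMap.id.snd.rec)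
  have hmk := hcod.mk_spec A hA Q hQr (pair v' N')
  have hel : ∀ y k, el (pair y k) (mk (pair v' N') Q) ↔ (y < v' ∧ k < N ∧ el (pair y k) C) := by
    intro y k
    rw [hmk]
    constructor
    · rintro ⟨-, h4, y', hy', k', hk', h5⟩
      obtain ⟨rfl, rfl⟩ := pair_inj h5
      exact ⟨hy', hk', h4⟩
    · rintro ⟨h4, h5, h6⟩
      exact ⟨defn_pair_lt h4 (h5.le.trans hN), h6, y, h4, k, h5, rfl⟩
  refine ⟨mk (pair v' N') Q, hcod.mk_lt A hA Q hQr _, ?_, ?_⟩
  · intro y hy hmy hP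
    obtain ⟨k, hk, hk2⟩ := ha y (hy.trans_le h2) hmy (h3 y hy hmy hP)
    exact ⟨k, hk.trans_le hN, (hel y k).mpr ⟨hy, hk, hk2⟩⟩
  · intro k hk
    by_cases hkN : k < N
    · refine defn_att_mono hcod S m v v' _ _ h1 h2 ?_ (hb k hkN)
      rintro y hy hmy ⟨h4, h5⟩
      exact ⟨h3 y hy hmy h4, ((hel y k).mp h5).2.2⟩
    · refine defn_att_mono hcod S m v v' _ _ h1 h2 ?_ (hb 0 h0)
      rintro y hy hmy ⟨h4, h5⟩
      exact absurd ((hel y k).mp h5).2.1 hkN

theorem defn_good_congr (S S' m : M) (h : ∀ x, el x S ↔ el x S') (hG : Good bd f Φ S m) :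
    Good bd f Φ S' m := by
  intro v hv
  obtain ⟨C, hC, ha, hb⟩ := hG v hv
  refine ⟨C, hC, ha, ?_⟩
  intro k hk
  obtain ⟨s, hs, h1, h2, h3⟩ := hb k hk
  refine ⟨s, hs, h1, h2, ?_⟩
  intro n hn t ht hE g hg g' hg' hC2 e he
  refine h3 n hn t ht hE g hg g' hg' ?_ e he
  obtain ⟨c1, c2, c3, c4⟩ := hC2
  exact ⟨(h g).mpr c1, (h g').mpr c2, c3, fun z hz hz2 hz3 => c4 z hz hz2 ((h z).mp hz3)⟩

theorem defn_good_single (hcod : CodAPI M bd) (hA : Base A) (S : M) :
    Good bd f Φ S 0 := by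
  intro v _
  set Q : M → Prop := fun x => ∃ y, y < v ∧ x = pair y 0 with hQ
  have hQr : RecP A Q := by
    refine RecP.bex hA.coll (Rec.const v) (R := fun x y => x = pair y 0) ?_
    exact RecP.eq PMap.id.fst.rec (PMap.id.snd.rec.pair (Rec.const 0))
  have hmk := hcod.mk_spec A hA Q hQr (pair v (0 + 1))
  refine ⟨mk (pair v (0 + 1)) Q, hcod.mk_lt A hA Q hQr _, ?_, ?_⟩
  · intro y hy _ _
    refine ⟨0, lt_add_one' 0, (hmk _).mpr ⟨?_, y, hy, rfl⟩⟩
    exact defn_pair_lt hy (lt_add_one' 0).le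
  · intro k _
    refine ⟨mk 0 (fun _ => False), hcod.mk_lt A hA _ (RecP.const False) _, ?_, ?_, ?_⟩
    · intro x y _ hy
      exact absurd hy (not_lt_zero'' y)
    · intro y _ _ _ x hx
      exact absurd hx (not_lt_zero'' x)
    · intro n _ t _ _ g hg
      exact absurd hg (not_lt_zero'' g)

end defn

theorem st_DEFN : ST_DEFN.{u} := by
  intro M _ bd hcod A hA f Φ hf hΦ _
  have hC := hA.coll1
  have hB := hA.base
  refine ⟨?_, ?_, ?_, ?_, ?_, ?_, ?_, ?_, ?_⟩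
  · intro Γ _ n c n' c' R hn hc hn' hc' hR
    exact defn_ext hcod hC hf hn hc hn' hc' hR
  · intro Γ _ b e n c hb he hn hc
    exact defn_ev hcod hC hΦ hb he hn hc
  · intro Γ _ S m v R hS hm hv hR
    exact defn_att hcod hC hf hΦ hS hm hv hR
  · intro Γ _ S m v N P hS hm hv hN hP
    exact defn_cov hcod hC hf hΦ hS hm hv hN hP
  · refine Pi1.all (R := fun S m => IsMaxOf S m → Good bd f Φ S m) ?_
    refine sig1_or_pi1 (R := fun g : M × M => IsMaxOf g.1 g.2)
      (S := fun g : M × M => Good bd f Φ g.1 g.2)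
      (defn_ismax hcod hC PMap.id.fst.rec PMap.id.snd.rec).1 ?_
    refine Pi1.all (R := fun (g : M × M) v => g.2 ≤ v →
      Cov bd f Φ g.1 g.2 v (g.2 + 1) (fun _ => True)) ?_
    refine RecP.pi1 (RecP.imp (RecP.le PMap.id.fst.snd.rec PMap.id.snd.rec) ?_)
    exact defn_cov hcod hC hf hΦ (Γ := (M × M) × M) (S := fun g => g.1.1) (m := fun g => g.1.2)
      (v := fun g => g.2) (N := fun g => g.1.2 + 1) (P := fun _ _ => True) PMap.id.fst.fst.rec
      PMap.id.fst.snd.rec PMap.id.snd.rec (PMap.id.fst.snd.rec.add (Rec.const 1))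
      (RecP.const True)
  · intro S m v v' R R' h1 h2 h3 h
    exact defn_att_mono hcod S m v v' R R' h1 h2 h3 h
  · intro S m v v' N N' P P' h1 h2 h0 hN h3 h
    exact defn_cov_mono hcod hB S m v v' N N' P P' h1 h2 h0 hN h3 h
  · intro S S' m h hG
    exact defn_good_congr S S' m h hG
  · intro S _
    exact defn_good_single hcod hB S

end Pool.Agent.Helper70.BRT
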